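import Mathlib
import Pool.Agent.H.MP_543a09_nt.C

set_option autoImplicit false

namespace Pool.Agent.Results.MP_543a09_nt.Yes

open Polynomial Filter Finset Topology Pool.Agent.H.MP_543a09_nt

/-- `(a, h)` is visible along `F`. -/
def Visible (F : ℤ[X]) (a h : ℕ) : Prop :=
  ∃ t : ℚ, (h : ℚ) = t * (F.eval (a : ℤ) : ℤ) ∧
    IsLeast {u : ℕ | 0 < u ∧ ∃ m : ℕ, 0 < m ∧ t * (F.eval (u : ℤ) : ℤ) = m} a

open Classical in
theorem result (F : ℤ[X]) (hL : 0 < F.leadingCoeff)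
    (hF : ∃ r s : ℂ, r ≠ s ∧ aeval r F = 0 ∧ aeval s F = 0) :
    Tendsto (fun N : ℕ =>
      (((Icc 1 N ×ˢ Icc 1 N).filter fun p : ℕ × ℕ => Visible F p.1 p.2).card : ℝ) / (N : ℝ) ^ 2)
      atTop (𝓝 1) := by
  obtain ⟨r, s, hrs, hr, hs⟩ := hF
  rw [aeval_def, eval₂_eq_eval_map] at hr hs
  have F0 : F ≠ 0 := fun c => by simp [c] at hL
  have inj : Function.Injective (Int.castRingHom ℂ) := RingHom.injective_int _
  have G0 := (Polynomial.map_ne_zero_iff inj).2 F0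
  have hd : 2 ≤ F.natDegree := by
    rw [← natDegree_map_eq_of_injective inj, ← card_pair hrs]
    refine card_le_degree_of_subset_roots fun z hz => (mem_roots G0).2 ?_
    rcases mem_insert.1 (show z ∈ ({r, s} : Finset ℂ) from hz) with rfl | hz
    · exact hr
    · exact (mem_singleton.1 hz) ▸ hs
  have key := bound F hd hL r s hrs hr hs (fun p => 0 < p.1 ∧ 0 < p.2 ∧ ¬ Visible F p.1 p.2)
    fun a h ⟨a0, h0, nv⟩ f0 => by
      by_contra hc
      have fq : ((F.eval (a : ℤ) : ℤ) : ℚ) ≠ 0 := by exact_mod_cast f0.ne'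
      refine nv ⟨h / (F.eval (a : ℤ) : ℤ), (div_mul_cancel₀ _ fq).symm,
        ⟨a0, h, h0, div_mul_cancel₀ _ fq⟩, fun u ⟨_, m, m0, E⟩ => not_lt.1 fun ua =>
          hc ⟨u, m, ua, m0, ?_⟩⟩
      rw [div_mul_eq_mul_div, div_eq_iff fq] at E
      exact_mod_cast E
  have e : ∀ N : ℕ, Icc 1 N = Ioc 0 N := fun N => rfl
  have sp : ∀ N : ℕ,
      (((Icc 1 N ×ˢ Icc 1 N).filter fun p : ℕ × ℕ => Visible F p.1 p.2).card : ℝ) +
      ((Ioc 0 N ×ˢ Ioc 0 N).filter fun p : ℕ × ℕ =>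
        0 < p.1 ∧ 0 < p.2 ∧ ¬ Visible F p.1 p.2).card = N ^ 2 := fun N => by
    have := card_filter_add_card_filter_not (s := Ioc 0 N ×ˢ Ioc 0 N)
      fun p : ℕ × ℕ => Visible F p.1 p.2
    rw [card_product, Nat.card_Ioc, Nat.sub_zero, ← sq] at this
    rw [e, filter_congr (q := fun p : ℕ × ℕ => ¬ Visible F p.1 p.2) (s := Ioc 0 N ×ˢ Ioc 0 N)
      (p := fun p : ℕ × ℕ => 0 < p.1 ∧ 0 < p.2 ∧ ¬ Visible F p.1 p.2) fun p hp =>
      ⟨fun h => h.2.2, fun h => ⟨(mem_Ioc.1 (mem_product.1 hp).1).1,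
        (mem_Ioc.1 (mem_product.1 hp).2).1, h⟩⟩]
    exact_mod_cast this
  refine tendsto_order.2 ⟨fun x hx => ?_, fun x hx => ?_⟩
  · obtain ⟨P, hP⟩ := exists_nat_gt
      (max (F.leadingCoeff : ℝ) (2 * (4 * F.natDegree + 2) / (1 - x)))
    have x0 : 0 < 1 - x := by linarith
    have p1 := (le_max_left _ _).trans_lt hP
    have p2 := (le_max_right _ _).trans_lt hP
    have Pr : (0 : ℝ) < P := lt_trans (by positivity) p2
    obtain ⟨c, hc⟩ := key P (by exact_mod_cast Pr) (by exact_mod_cast p1.le)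
    filter_upwards [tendsto_natCast_atTop_atTop.eventually_gt_atTop (2 * c / (1 - x) : ℝ),
      eventually_gt_atTop 0] with N n1 n2
    have Nr : (0 : ℝ) < N := by exact_mod_cast n2
    rw [div_lt_iff₀ x0] at p2 n1
    have a : (4 * F.natDegree + 2 : ℝ) * N ^ 2 / P ≤ (1 - x) / 2 * N ^ 2 := by
      rw [div_le_iff₀ Pr]
      nlinarith [sq_nonneg (N : ℝ)]
    have b := hc N
    have := sp N
    rw [lt_div_iff₀ (by positivity)]
    have := mul_lt_mul_of_pos_right n1 Nr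
    have b' : (((Ioc 0 N ×ˢ Ioc 0 N).filter fun p : ℕ × ℕ =>
        0 < p.1 ∧ 0 < p.2 ∧ ¬ Visible F p.1 p.2).card : ℝ) ≤
        c * N + (4 * F.natDegree + 2) * N ^ 2 / P := by convert b
    nlinarith
  · refine Eventually.of_forall fun N => lt_of_le_of_lt (div_le_one_of_le₀ ?_ (by positivity)) hx
    rw [← sp N]
    exact le_add_of_nonneg_right (by positivity)

end Pool.Agent.Results.MP_543a09_nt.Yes
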